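import Pool.Agent.K7.H13.KT_UPPER
import Pool.Agent.K7.H8.KT_BAD
import Pool.Agent.K7.H62.KT_COPY
import Pool.Agent.K7.H62.KT_PRIME
import Pool.Agent.K7.H62.KT_LOW
import Pool.Agent.K7.H24.KT.Plane2

/-!
# `ex(n, K_{3,3}, K_{2,4}) = (1/12 + o(1)) n²`, the case `t = 3` of MP_63048f_co, Q1
-/

set_option autoImplicit false

namespace Pool.Agent.Results.MP_63048f_co.ThreeByThree

open Filter Topology Pool.Agent.K7.H24.KT

theorem result : Tendsto (fun n : ℕ => (N 3 n : ℝ) / (n : ℝ) ^ 2) atTop (𝓝 (1 / 12)) :=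
  Pool.Agent.K7.H13.KT.stFinal Pool.Agent.K7.H62.KT.Copy.t Pool.Agent.K7.H13.KT.stFree
    Pool.Agent.K7.H13.KT.stUpper
    (Pool.Agent.K7.H62.KT.Low.t Pool.Agent.K7.H13.KT.stMap
      (plane Pool.Agent.K7.H8.KTBAD.t) Pool.Agent.K7.H62.KT.Prime.t)

end Pool.Agent.Results.MP_63048f_co.ThreeByThree
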